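import Pool.Agent.helper78.FS.Spec

namespace Pool.Agent.helper78.FS

open Finset Real
open Classical

noncomputable section

theorem POL_d (r t t' : ℝ) : dist (Nt r t) (Nt r t') ^ 2 = r ^ 2 * (2 - 2 * cos (t - t')) := by
  rw [EuclideanSpace.dist_eq, Real.sq_sqrt (by positivity), Fin.sum_univ_three, cos_sub]
  simp only [Nt, Real.dist_eq, sq_abs]
  simp
  linear_combination r ^ 2 * sin_sq_add_cos_sq t + r ^ 2 * sin_sq_add_cos_sq t'

theorem POL_d' (r t t' : ℝ) : dist (Nt r t) (- Nt r t') ^ 2 = r ^ 2 * (2 + 2 * cos (t - t')) := by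
  rw [EuclideanSpace.dist_eq, Real.sq_sqrt (by positivity), Fin.sum_univ_three, cos_sub]
  simp only [Nt, Real.dist_eq, sq_abs]
  simp
  linear_combination r ^ 2 * sin_sq_add_cos_sq t + r ^ 2 * sin_sq_add_cos_sq t'

/-- separation of the angles. -/
theorem POL_cos (n k k' : ℕ) (hn : 0 < n) (hk : k < n) (hk' : k' < n) (hkk : k ≠ k') :
    cos (k * π / n - k' * π / n) ≤ 1 - 2 / (n : ℝ) ^ 2 ∧ -(1 - 2 / (n : ℝ) ^ 2) ≤ cos (k * π / n - k' * π / n) := by
  wlog h : k' < k generalizing k k'
  · have h1 := this k' k hk' hk (Ne.symm hkk) (by omega)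
    have e : cos (k * π / n - k' * π / n) = cos (k' * π / n - k * π / n) := by
      rw [← cos_neg]
      congr 1
      ring
    rw [e]
    exact h1
  have hnp : (0 : ℝ) < n := by exact_mod_cast hn
  have h1n : (1 : ℝ) ≤ n := by exact_mod_cast hn
  have hm1 : (1 : ℝ) ≤ (k : ℝ) - k' := by
    have : (k' : ℝ) + 1 ≤ k := by exact_mod_cast h
    linarith
  have hm2 : (k : ℝ) - k' ≤ n - 1 := by
    have h1 : (k : ℝ) + 1 ≤ n := by exact_mod_cast hk
    have h2 : (0 : ℝ) ≤ k' := by positivity
    linarith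
  have hπ := pi_pos
  set Δ := (k : ℝ) * π / n - k' * π / n with hΔ
  have e : Δ = ((k : ℝ) - k') * (π / n) := by rw [hΔ]; ring
  have hpn : 0 < π / n := by positivity
  have h1 : π / n ≤ Δ := by rw [e]; nlinarith
  have h2 : Δ ≤ π - π / n := by
    rw [e]
    have e2 : π - π / n = ((n : ℝ) - 1) * (π / n) := by field_simp
    rw [e2]
    exact mul_le_mul_of_nonneg_right hm2 hpn.le
  -- cos (π / n) ≤ 1 - 2 / n ^ 2
  have hs : 1 / (n : ℝ) ≤ sin (π / (2 * n)) := by
    have h3 : π / (2 * n) ≤ π / 2 := by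
      apply div_le_div_of_nonneg_left hπ.le (by norm_num)
      linarith
    have h4 := mul_le_sin (x := π / (2 * n)) (by positivity) h3
    have e3 : 2 / π * (π / (2 * n)) = 1 / n := by field_simp
    rwa [e3] at h4
  have hc : cos (π / n) ≤ 1 - 2 / (n : ℝ) ^ 2 := by
    have e4 : π / n = 2 * (π / (2 * n)) := by ring
    have h5 : (1 / (n : ℝ)) ^ 2 ≤ sin (π / (2 * n)) ^ 2 := pow_le_pow_left₀ (by positivity) hs 2
    rw [e4, cos_two_mul, cos_sq']
    have e5 : (1 / (n : ℝ)) ^ 2 = 1 / (n : ℝ) ^ 2 := by rw [div_pow, one_pow]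
    rw [e5] at h5
    have e6 : 2 / (n : ℝ) ^ 2 = 2 * (1 / (n : ℝ) ^ 2) := by ring
    rw [e6]
    linarith
  constructor
  · refine le_trans ?_ hc
    apply cos_le_cos_of_nonneg_of_le_pi hpn.le _ h1
    linarith
  · have h6 : cos (π - π / n) ≤ cos Δ := by
      apply cos_le_cos_of_nonneg_of_le_pi _ _ h2
      · linarith
      · linarith
    rw [cos_pi_sub] at h6
    linarith

theorem POL_sep (r t t' : ℝ) (n : ℕ) (hn : 0 < n) (hr : 0 < r)
    (h1 : cos (t - t') ≤ 1 - 2 / (n : ℝ) ^ 2) (h2 : -(1 - 2 / (n : ℝ) ^ 2) ≤ cos (t - t')) :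
    2 * r / n ≤ dist (Nt r t) (Nt r t') ∧ 2 * r / n ≤ dist (Nt r t) (- Nt r t') := by
  have hnp : (0 : ℝ) < n := by exact_mod_cast hn
  have key : ∀ d : ℝ, 0 ≤ d → r ^ 2 * (4 / (n : ℝ) ^ 2) ≤ d ^ 2 → 2 * r / n ≤ d := by
    intro d hd h
    apply le_of_sq_le_sq _ hd
    calc (2 * r / n) ^ 2 = r ^ 2 * (4 / (n : ℝ) ^ 2) := by rw [div_pow]; ring
      _ ≤ d ^ 2 := h
  have e : 4 / (n : ℝ) ^ 2 = 2 * (2 / (n : ℝ) ^ 2) := by ring
  constructor
  · apply key _ dist_nonneg
    rw [POL_d]
    apply mul_le_mul_of_nonneg_left _ (sq_nonneg r)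
    rw [e]
    linarith
  · apply key _ dist_nonneg
    rw [POL_d']
    apply mul_le_mul_of_nonneg_left _ (sq_nonneg r)
    rw [e]
    linarith

theorem POL : POL_stmt := by
  intro K r S hr hS
  have hπ := pi_pos
  set n := K + 1 with hn
  have hn0 : 0 < n := by omega
  have hnp : (0 : ℝ) < n := by exact_mod_cast hn0
  have hKn : (K : ℝ) + 1 = n := by rw [hn]; push_cast; ring
  rw [hKn]
  by_contra hcon
  push Not at hcon
  have hcond : ∀ k < n, ∃ b ∈ S, dist b (Nt r (k * π / n)) < r / n ∨ dist b (- Nt r (k * π / n)) < r / n := by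
    intro k hk
    have h1 : ((k : ℝ) * π / n = 0 ∨ (0 < (k : ℝ) * π / n ∧ (k : ℝ) * π / n < π ∧ 2 * r / n ≤ r * sin ((k : ℝ) * π / n))) := by
      rcases Nat.eq_zero_or_pos k with h0 | h0
      · left
        rw [h0]
        simp
      · right
        have hkp : (1 : ℝ) ≤ k := by exact_mod_cast h0
        have hk1 : (k : ℝ) + 1 ≤ n := by exact_mod_cast hk
        have hpn : 0 < π / n := by positivity
        have e : (k : ℝ) * π / n = k * (π / n) := by ring
        have e2 : (n : ℝ) * (π / n) = π := by field_simp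
        refine ⟨by positivity, ?_, ?_⟩
        · rw [e]
          nlinarith
        · have e1 : 2 * r / n = r * (2 / n) := by ring
          rw [e1]
          apply mul_le_mul_of_nonneg_left _ hr.le
          -- 2 / n ≤ sin (k π / n)
          rcases le_total ((k : ℝ) * π / n) (π / 2) with h3 | h3
          · have h4 := mul_le_sin (x := (k : ℝ) * π / n) (by positivity) h3
            have e3 : 2 / π * ((k : ℝ) * π / n) = k * (2 / n) := by field_simp
            rw [e3] at h4
            refine le_trans ?_ h4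
            have : 0 < 2 / (n : ℝ) := by positivity
            nlinarith
          · have h5 : π - (k : ℝ) * π / n ≤ π / 2 := by linarith
            have h6 : 0 ≤ π - (k : ℝ) * π / n := by
              rw [e]
              nlinarith
            have h4 := mul_le_sin (x := π - (k : ℝ) * π / n) h6 h5
            rw [sin_pi_sub] at h4
            refine le_trans ?_ h4
            have e3 : 2 / π * (π - (k : ℝ) * π / n) = ((n : ℝ) - k) * (2 / n) := by field_simp
            rw [e3]
            have : 0 < 2 / (n : ℝ) := by positivity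
            nlinarith
    obtain ⟨b, hb, h2⟩ := hcon _ h1
    refine ⟨b, hb, ?_⟩
    by_cases h3 : r / n ≤ dist b (Nt r (k * π / n))
    · exact Or.inr (h2 h3)
    · exact Or.inl (not_le.1 h3)
  choose! f hf hfd using hcond
  obtain ⟨k, hk, k', hk', hkk, hff⟩ := Finset.exists_ne_map_eq_of_card_lt_of_maps_to (s := Finset.range n) (t := S) (f := f)
    (by rw [Finset.card_range]; omega) (fun k hk => hf k (Finset.mem_range.1 hk))
  rw [Finset.mem_range] at hk hk'
  obtain ⟨hc1, hc2⟩ := POL_cos n k k' hn0 hk hk' hkk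
  obtain ⟨hs1, hs2⟩ := POL_sep r (k * π / n) (k' * π / n) n hn0 hr hc1 hc2
  have hd := hfd k hk
  have hd' := hfd k' hk'
  rw [← hff] at hd'
  have e2 : 2 * r / (n : ℝ) = r / n + r / n := by ring
  rcases hd with h1 | h1 <;> rcases hd' with h2 | h2
  · have := dist_triangle_left (Nt r (k * π / n)) (Nt r (k' * π / n)) (f k)
    linarith
  · have := dist_triangle_left (Nt r (k * π / n)) (- Nt r (k' * π / n)) (f k)
    linarith
  · have h3 := dist_triangle_left (- Nt r (k * π / n)) (Nt r (k' * π / n)) (f k)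
    have h4 : dist (- Nt r (k * π / n)) (Nt r (k' * π / n)) = dist (Nt r (k * π / n)) (- Nt r (k' * π / n)) := by
      rw [← dist_neg_neg, neg_neg]
    linarith
  · have h3 := dist_triangle_left (- Nt r (k * π / n)) (- Nt r (k' * π / n)) (f k)
    rw [dist_neg_neg] at h3
    linarith

end

end Pool.Agent.helper78.FS
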